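import Mathlib

/-!
Path properties of finite graphs: `P_i` says that any two distinct vertices are joined by a path
with exactly `i` vertices. For every `n ≥ 11` we construct a graph of order `n` which has `P_i`
for all `3 ≤ i ≤ n` except `i = 5`.
-/

namespace Pool.Agent.V11195.PathProp

/-- The distinct vertices `u` and `v` are joined by a path with exactly `i` vertices: a sequence
of `i` distinct vertices from `u` to `v` whose consecutive members are adjacent. -/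
def Joined {V : Type*} (G : SimpleGraph V) (i : ℕ) (u v : V) : Prop :=
  ∃ l : List V, l.length = i ∧ l.Nodup ∧ l.IsChain G.Adj ∧ l.head? = some u ∧ l.getLast? = some v

/-- Property `P_i`. -/
def HasP {V : Type*} (G : SimpleGraph V) (i : ℕ) : Prop := ∀ u v : V, u ≠ v → Joined G i u v

/-- The closure of `S ⊆ {2,…,n}`: all `j ∈ {2,…,n}` such that every graph of order `n` with
`P_i` for all `i ∈ S` has `P_j`. -/
def closure (n : ℕ) (S : Set ℕ) : Set ℕ :=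
  {j | 2 ≤ j ∧ j ≤ n ∧ ∀ (V : Type) [Fintype V] (G : SimpleGraph V),
    Fintype.card V = n → (∀ i ∈ S, HasP G i) → HasP G j}

lemma joined_symm {V : Type*} {G : SimpleGraph V} {i : ℕ} {u v : V} (h : Joined G i u v) :
    Joined G i v u := by
  obtain ⟨l, h1, h2, h3, h4, h5⟩ := h
  refine ⟨l.reverse, by simpa using h1, List.nodup_reverse.mpr h2, ?_, ?_, ?_⟩
  · rw [List.isChain_reverse]
    exact h3.imp fun a b hab => hab.symm
  · rw [List.head?_reverse]; exact h5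
  · rw [List.getLast?_reverse]; exact h4

lemma joined_five {V : Type*} {G : SimpleGraph V} {u v : V} :
    Joined G 5 u v ↔ ∃ a b c, [u, a, b, c, v].Nodup ∧ G.Adj u a ∧ G.Adj a b ∧ G.Adj b c ∧
      G.Adj c v := by
  constructor
  · rintro ⟨l, h1, h2, h3, h4, h5⟩
    match l, h1 with
    | [x, a, b, c, y], _ =>
      simp only [List.head?_cons, Option.some.injEq] at h4
      simp only [List.getLast?_cons_cons, List.getLast?_singleton, Option.some.injEq] at h5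
      subst h4 h5
      simp only [List.isChain_cons_cons, List.isChain_singleton, and_true] at h3
      exact ⟨a, b, c, h2, h3⟩
  · rintro ⟨a, b, c, h, h1, h2, h3, h4⟩
    refine ⟨[u, a, b, c, v], rfl, h, ?_, rfl, rfl⟩
    simp [h1, h2, h3, h4]

/-! ### Adding a true twin of `w` -/

/-- The graph obtained by adding a new vertex `none`, adjacent to `w` and its neighbours. -/
def twin {V : Type*} (G : SimpleGraph V) (w : V) : SimpleGraph (Option V) where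
  Adj a b := match a, b with
    | some a, some b => G.Adj a b
    | none, some b => b = w ∨ G.Adj w b
    | some a, none => a = w ∨ G.Adj w a
    | none, none => False
  symm := ⟨by
    rintro (_ | a) (_ | b) h
    · exact h
    · exact h
    · exact h
    · exact G.adj_symm h⟩
  loopless := ⟨by
    rintro (_ | a) h
    · exact h
    · exact G.loopless.irrefl a h⟩

section twin

variable {V : Type*} {G : SimpleGraph V} {w : V} {i : ℕ} {s t : V}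

lemma chain_map {l : List V} (h : l.IsChain G.Adj) : (l.map some).IsChain (twin G w).Adj := by
  rw [List.isChain_map]
  exact h.imp fun a b hab => hab

lemma joined_map (h : Joined G i s t) : Joined (twin G w) i (some s) (some t) := by
  obtain ⟨l, h1, h2, h3, h4, h5⟩ := h
  refine ⟨l.map some, by simpa using h1, h2.map (Option.some_injective _), chain_map h3, ?_, ?_⟩
  · rw [List.head?_map, h4]; rfl
  · rw [List.getLast?_map, h5]; rfl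

/-- Append the twin after a path ending at `w` or at a neighbour of `w`. -/
lemma joined_append (h : Joined G i s t) (ht : t = w ∨ G.Adj w t) :
    Joined (twin G w) (i + 1) (some s) none := by
  obtain ⟨l, h1, h2, h3, h4, h5⟩ := h
  refine ⟨l.map some ++ [none], by simpa using h1, ?_, ?_, ?_, by simp⟩
  · rw [List.nodup_append]
    refine ⟨h2.map (Option.some_injective _), by simp, ?_⟩
    intro a ha b hb
    simp only [List.mem_singleton] at hb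
    obtain ⟨x, _, rfl⟩ := List.mem_map.mp ha
    rw [hb]; simp
  · rw [List.isChain_append]
    refine ⟨chain_map h3, by simp, ?_⟩
    intro x hx y hy
    rw [List.getLast?_map, h5] at hx
    simp only [Option.map_some, Option.mem_def, Option.some.injEq] at hx
    simp only [List.head?_cons, Option.mem_def, Option.some.injEq] at hy
    subst hx hy
    exact ht
  · rw [List.head?_append, List.head?_map, h4]; rfl

/-- Replace the last vertex `w` of a path by its twin. -/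
lemma joined_replace (hs : s ≠ w) (h : Joined G i s w) : Joined (twin G w) i (some s) none := by
  obtain ⟨l, h1, h2, h3, h4, h5⟩ := h
  obtain ⟨l', rfl⟩ := List.getLast?_eq_some_iff.mp h5
  rcases List.eq_nil_or_concat l' with rfl | ⟨l'', t, rfl⟩
  · simp at h4
    exact absurd h4.symm hs
  · rw [List.concat_eq_append] at h1 h2 h3 h4
    rw [List.isChain_append] at h3
    obtain ⟨h31, _, h32⟩ := h3
    have htw : G.Adj t w := h32 t (by simp) w (by simp)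
    have hj : Joined G (l'' ++ [t]).length s t := by
      refine ⟨_, rfl, (List.nodup_append.mp h2).1, h31, ?_, by simp⟩
      rw [List.head?_append] at h4
      cases hh : (l'' ++ [t]).head? with
      | none => simp at hh
      | some x => rw [hh] at h4; simpa using h4
    have := joined_append (w := w) hj (Or.inr htw.symm)
    simp only [List.length_append, List.length_cons, List.length_nil] at h1 this
    rw [← h1]
    exact this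

/-- Insert the twin in a path through `w`. -/
lemma joined_insert (hst : s ≠ t) {l : List V} (h1 : l.length = i) (h2 : l.Nodup)
    (h3 : l.IsChain G.Adj) (h4 : l.head? = some s) (h5 : l.getLast? = some t) (hw : w ∈ l) :
    Joined (twin G w) (i + 1) (some s) (some t) := by
  obtain ⟨A, B, rfl⟩ := List.append_of_mem hw
  rw [List.isChain_append] at h3
  obtain ⟨hA, hB, hAB⟩ := h3
  cases B with
  | nil =>
    -- `w` is the last vertex, insert before it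
    have ht : t = w := by simpa using h5.symm
    rcases List.eq_nil_or_concat A with rfl | ⟨A', a, rfl⟩
    · simp at h4
      exact absurd (h4.symm.trans ht.symm) hst
    · rw [List.concat_eq_append] at h1 h2 h4 hA hAB
      have haw : G.Adj a w := hAB a (by simp) w (by simp)
      refine ⟨(A' ++ [a]).map some ++ [none, some w], by simp at h1 ⊢; omega, ?_, ?_, ?_, ?_⟩
      · rw [List.nodup_append] at h2 ⊢
        refine ⟨h2.1.map (Option.some_injective _), by simp, ?_⟩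
        intro x hx y hy
        obtain ⟨x', hx', rfl⟩ := List.mem_map.mp hx
        simp only [List.mem_cons, List.not_mem_nil, or_false] at hy
        rcases hy with rfl | rfl
        · simp
        · intro he
          have he' : x' = w := Option.some_injective _ he
          exact h2.2.2 x' hx' w (by simp) he'
      · rw [List.isChain_append]
        refine ⟨chain_map hA, ?_, ?_⟩
        · simp only [List.isChain_cons_cons, List.isChain_singleton, and_true]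
          exact Or.inl rfl
        · intro x hx y hy
          simp only [List.map_append, List.map_cons, List.map_nil, List.getLast?_append,
            List.getLast?_singleton, Option.some_or, Option.mem_def, Option.some.injEq] at hx
          simp only [List.head?_cons, Option.mem_def, Option.some.injEq] at hy
          subst hx hy
          exact Or.inr haw.symm
      · rw [List.head?_append] at h4 ⊢
        cases hh : (A' ++ [a]).head? with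
        | none => simp at hh
        | some x =>
          rw [hh] at h4
          rw [List.head?_map, hh]
          simp at h4
          simp [h4]
      · simp [ht]
  | cons b B' =>
    have hwb : G.Adj w b := (List.isChain_cons_cons.mp hB).1
    have hB' : (b :: B').IsChain G.Adj := (List.isChain_cons_cons.mp hB).2
    refine ⟨A.map some ++ some w :: none :: (b :: B').map some, by simp at h1 ⊢; omega,
      ?_, ?_, ?_, ?_⟩
    · rw [List.nodup_append] at h2 ⊢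
      obtain ⟨g1, g2, g3⟩ := h2
      refine ⟨g1.map (Option.some_injective _), ?_, ?_⟩
      · rw [List.nodup_cons] at g2
        rw [List.nodup_cons, List.nodup_cons]
        refine ⟨?_, by simp, g2.2.map (Option.some_injective _)⟩
        simp only [List.mem_cons, reduceCtorEq, false_or]
        intro he
        obtain ⟨x, hx, hx'⟩ := List.mem_map.mp he
        exact g2.1 ((Option.some_injective _ hx') ▸ hx)
      · intro x hx y hy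
        obtain ⟨x', hx', rfl⟩ := List.mem_map.mp hx
        simp only [List.mem_cons] at hy
        rcases hy with rfl | rfl | hy
        · intro he
          exact g3 x' hx' w (by simp) (Option.some_injective _ he)
        · simp
        · obtain ⟨y', hy', rfl⟩ := List.mem_map.mp hy
          intro he
          exact g3 x' hx' y' (List.mem_cons_of_mem _ hy') (Option.some_injective _ he)
    · rw [List.isChain_append]
      refine ⟨chain_map hA, ?_, ?_⟩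
      · rw [List.isChain_cons_cons, List.map_cons, List.isChain_cons_cons]
        refine ⟨Or.inl rfl, Or.inr hwb, ?_⟩
        have := chain_map (w := w) hB'
        simpa using this
      · intro x hx y hy
        simp only [List.head?_cons, Option.mem_def, Option.some.injEq] at hy
        rw [List.getLast?_map] at hx
        cases hh : A.getLast? with
        | none => rw [hh] at hx; simp at hx
        | some z =>
          rw [hh] at hx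
          simp only [Option.map_some, Option.mem_def, Option.some.injEq] at hx
          subst hx hy
          exact hAB z hh w (by simp)
    · rw [List.head?_append] at h4 ⊢
      rw [List.head?_map]
      cases hh : A.head? with
      | none => rw [hh] at h4; simpa using h4
      | some x => rw [hh] at h4; simpa using h4
    · have e : (A ++ w :: b :: B').getLast? = (b :: B').getLast? := by
        rw [List.getLast?_append, List.getLast?_cons_cons]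
        cases hh : (b :: B').getLast? with
        | none => simp at hh
        | some x => simp
      rw [e] at h5
      rw [List.getLast?_append, List.getLast?_cons_cons, List.getLast?_cons, List.getLast?_map, h5]
      simp

end twin

/-! ### The base graph -/

/-- Neighbour lists of the base graph of order `11`. -/
def nb : Fin 11 → List (Fin 11) := ![[1, 2, 3, 4], [0, 2, 3, 4], [0, 1, 3, 5, 6], [0, 1, 2, 7, 8], [0, 1, 9, 10], [2, 6, 7, 8, 9, 10], [2, 5, 7, 8, 9, 10], [3, 5, 6, 8, 9, 10], [3, 5, 6, 7, 9, 10], [4, 5, 6, 7, 8, 10], [4, 5, 6, 7, 8, 9]]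

/-- The base graph: `0 ~ 1`, both adjacent to `2, 3, 4`, `2 ~ 3`, and a clique `{5,…,10}` with
`5, 6 ~ 2`, `7, 8 ~ 3`, `9, 10 ~ 4`. -/
def base : SimpleGraph (Fin 11) where
  Adj a b := b ∈ nb a
  symm := ⟨by decide⟩
  loopless := ⟨by decide⟩

instance : DecidableRel base.Adj := fun a b => inferInstanceAs (Decidable (b ∈ nb a))

/-- Explicit paths between `u < v` with `3, 4, 6, …, 11` vertices. -/
def cert : List (List (List (List (Fin 11)))) := [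
  [[],
   [[0, 2, 1], [0, 2, 3, 1], [0, 2, 5, 7, 3, 1], [0, 2, 3, 7, 9, 4, 1], [0, 2, 3, 7, 5, 9, 4, 1], [0, 2, 3, 7, 5, 6, 9, 4, 1], [0, 2, 3, 7, 5, 6, 8, 9, 4, 1], [0, 2, 3, 7, 5, 6, 8, 9, 10, 4, 1]],
   [[0, 1, 2], [0, 1, 3, 2], [0, 1, 3, 7, 5, 2], [0, 1, 3, 7, 5, 6, 2], [0, 1, 3, 7, 5, 8, 6, 2], [0, 1, 3, 7, 5, 8, 9, 6, 2], [0, 1, 3, 7, 5, 8, 9, 10, 6, 2], [0, 1, 3, 7, 5, 8, 9, 4, 10, 6, 2]],
   [[0, 1, 3], [0, 1, 2, 3], [0, 1, 2, 5, 7, 3], [0, 1, 2, 5, 6, 7, 3], [0, 1, 2, 5, 6, 7, 8, 3], [0, 1, 2, 5, 6, 7, 9, 8, 3], [0, 1, 2, 5, 6, 7, 9, 10, 8, 3], [0, 1, 2, 5, 6, 7, 9, 4, 10, 8, 3]],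
   [[0, 1, 4], [0, 2, 1, 4], [0, 1, 2, 5, 9, 4], [0, 1, 2, 3, 7, 9, 4], [0, 1, 2, 3, 7, 5, 9, 4], [0, 1, 2, 3, 7, 5, 6, 9, 4], [0, 1, 2, 3, 7, 5, 6, 8, 9, 4], [0, 1, 2, 3, 7, 5, 6, 8, 9, 10, 4]],
   [[0, 2, 5], [0, 1, 2, 5], [0, 1, 2, 3, 7, 5], [0, 1, 2, 3, 7, 6, 5], [0, 1, 2, 3, 7, 6, 8, 5], [0, 1, 2, 3, 7, 6, 8, 9, 5], [0, 1, 2, 3, 7, 6, 8, 9, 10, 5], [0, 1, 2, 3, 7, 6, 8, 9, 4, 10, 5]],
   [[0, 2, 6], [0, 1, 2, 6], [0, 1, 2, 3, 7, 6], [0, 1, 2, 3, 7, 5, 6], [0, 1, 2, 3, 7, 5, 8, 6], [0, 1, 2, 3, 7, 5, 8, 9, 6], [0, 1, 2, 3, 7, 5, 8, 9, 10, 6], [0, 1, 2, 3, 7, 5, 8, 9, 4, 10, 6]],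
   [[0, 3, 7], [0, 1, 3, 7], [0, 1, 2, 3, 8, 7], [0, 1, 2, 3, 8, 5, 7], [0, 1, 2, 3, 8, 5, 6, 7], [0, 1, 2, 3, 8, 5, 6, 9, 7], [0, 1, 2, 3, 8, 5, 6, 9, 10, 7], [0, 1, 2, 3, 8, 5, 6, 9, 4, 10, 7]],
   [[0, 3, 8], [0, 1, 3, 8], [0, 1, 2, 3, 7, 8], [0, 1, 2, 3, 7, 5, 8], [0, 1, 2, 3, 7, 5, 6, 8], [0, 1, 2, 3, 7, 5, 6, 9, 8], [0, 1, 2, 3, 7, 5, 6, 9, 10, 8], [0, 1, 2, 3, 7, 5, 6, 9, 4, 10, 8]],
   [[0, 4, 9], [0, 1, 4, 9], [0, 1, 2, 3, 7, 9], [0, 1, 2, 3, 7, 5, 9], [0, 1, 2, 3, 7, 5, 6, 9], [0, 1, 2, 3, 7, 5, 6, 8, 9], [0, 1, 2, 3, 7, 5, 6, 8, 10, 9], [0, 1, 2, 3, 7, 5, 6, 8, 10, 4, 9]],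
   [[0, 4, 10], [0, 1, 4, 10], [0, 1, 2, 3, 7, 10], [0, 1, 2, 3, 7, 5, 10], [0, 1, 2, 3, 7, 5, 6, 10], [0, 1, 2, 3, 7, 5, 6, 8, 10], [0, 1, 2, 3, 7, 5, 6, 8, 9, 10], [0, 1, 2, 3, 7, 5, 6, 8, 9, 4, 10]]],
  [[],
   [],
   [[1, 0, 2], [1, 0, 3, 2], [1, 0, 3, 7, 5, 2], [1, 0, 3, 7, 5, 6, 2], [1, 0, 3, 7, 5, 8, 6, 2], [1, 0, 3, 7, 5, 8, 9, 6, 2], [1, 0, 3, 7, 5, 8, 9, 10, 6, 2], [1, 0, 3, 7, 5, 8, 9, 4, 10, 6, 2]],
   [[1, 0, 3], [1, 0, 2, 3], [1, 0, 2, 5, 7, 3], [1, 0, 2, 5, 6, 7, 3], [1, 0, 2, 5, 6, 7, 8, 3], [1, 0, 2, 5, 6, 7, 9, 8, 3], [1, 0, 2, 5, 6, 7, 9, 10, 8, 3], [1, 0, 2, 5, 6, 7, 9, 4, 10, 8, 3]],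
   [[1, 0, 4], [1, 2, 0, 4], [1, 0, 2, 5, 9, 4], [1, 0, 2, 3, 7, 9, 4], [1, 0, 2, 3, 7, 5, 9, 4], [1, 0, 2, 3, 7, 5, 6, 9, 4], [1, 0, 2, 3, 7, 5, 6, 8, 9, 4], [1, 0, 2, 3, 7, 5, 6, 8, 9, 10, 4]],
   [[1, 2, 5], [1, 0, 2, 5], [1, 0, 2, 3, 7, 5], [1, 0, 2, 3, 7, 6, 5], [1, 0, 2, 3, 7, 6, 8, 5], [1, 0, 2, 3, 7, 6, 8, 9, 5], [1, 0, 2, 3, 7, 6, 8, 9, 10, 5], [1, 0, 2, 3, 7, 6, 8, 9, 4, 10, 5]],
   [[1, 2, 6], [1, 0, 2, 6], [1, 0, 2, 3, 7, 6], [1, 0, 2, 3, 7, 5, 6], [1, 0, 2, 3, 7, 5, 8, 6], [1, 0, 2, 3, 7, 5, 8, 9, 6], [1, 0, 2, 3, 7, 5, 8, 9, 10, 6], [1, 0, 2, 3, 7, 5, 8, 9, 4, 10, 6]],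
   [[1, 3, 7], [1, 0, 3, 7], [1, 0, 2, 3, 8, 7], [1, 0, 2, 3, 8, 5, 7], [1, 0, 2, 3, 8, 5, 6, 7], [1, 0, 2, 3, 8, 5, 6, 9, 7], [1, 0, 2, 3, 8, 5, 6, 9, 10, 7], [1, 0, 2, 3, 8, 5, 6, 9, 4, 10, 7]],
   [[1, 3, 8], [1, 0, 3, 8], [1, 0, 2, 3, 7, 8], [1, 0, 2, 3, 7, 5, 8], [1, 0, 2, 3, 7, 5, 6, 8], [1, 0, 2, 3, 7, 5, 6, 9, 8], [1, 0, 2, 3, 7, 5, 6, 9, 10, 8], [1, 0, 2, 3, 7, 5, 6, 9, 4, 10, 8]],
   [[1, 4, 9], [1, 0, 4, 9], [1, 0, 2, 3, 7, 9], [1, 0, 2, 3, 7, 5, 9], [1, 0, 2, 3, 7, 5, 6, 9], [1, 0, 2, 3, 7, 5, 6, 8, 9], [1, 0, 2, 3, 7, 5, 6, 8, 10, 9], [1, 0, 2, 3, 7, 5, 6, 8, 10, 4, 9]],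
   [[1, 4, 10], [1, 0, 4, 10], [1, 0, 2, 3, 7, 10], [1, 0, 2, 3, 7, 5, 10], [1, 0, 2, 3, 7, 5, 6, 10], [1, 0, 2, 3, 7, 5, 6, 8, 10], [1, 0, 2, 3, 7, 5, 6, 8, 9, 10], [1, 0, 2, 3, 7, 5, 6, 8, 9, 4, 10]]],
  [[],
   [],
   [],
   [[2, 0, 3], [2, 0, 1, 3], [2, 0, 4, 9, 7, 3], [2, 0, 1, 4, 9, 7, 3], [2, 0, 1, 4, 9, 5, 7, 3], [2, 0, 1, 4, 9, 5, 6, 7, 3], [2, 0, 1, 4, 9, 5, 6, 7, 8, 3], [2, 0, 1, 4, 9, 5, 6, 7, 10, 8, 3]],
   [[2, 0, 4], [2, 0, 1, 4], [2, 0, 3, 7, 9, 4], [2, 0, 1, 3, 7, 9, 4], [2, 0, 1, 3, 7, 5, 9, 4], [2, 0, 1, 3, 7, 5, 6, 9, 4], [2, 0, 1, 3, 7, 5, 6, 8, 9, 4], [2, 0, 1, 3, 7, 5, 6, 8, 9, 10, 4]],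
   [[2, 6, 5], [2, 3, 7, 5], [2, 0, 1, 3, 7, 5], [2, 0, 1, 3, 7, 6, 5], [2, 0, 1, 3, 7, 6, 8, 5], [2, 0, 1, 3, 7, 6, 8, 9, 5], [2, 0, 1, 3, 7, 6, 8, 9, 10, 5], [2, 0, 1, 3, 7, 6, 8, 9, 4, 10, 5]],
   [[2, 5, 6], [2, 3, 7, 6], [2, 0, 1, 3, 7, 6], [2, 0, 1, 3, 7, 5, 6], [2, 0, 1, 3, 7, 5, 8, 6], [2, 0, 1, 3, 7, 5, 8, 9, 6], [2, 0, 1, 3, 7, 5, 8, 9, 10, 6], [2, 0, 1, 3, 7, 5, 8, 9, 4, 10, 6]],
   [[2, 3, 7], [2, 0, 3, 7], [2, 0, 1, 3, 8, 7], [2, 0, 1, 3, 8, 5, 7], [2, 0, 1, 3, 8, 5, 6, 7], [2, 0, 1, 3, 8, 5, 6, 9, 7], [2, 0, 1, 3, 8, 5, 6, 9, 10, 7], [2, 0, 1, 3, 8, 5, 6, 9, 4, 10, 7]],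
   [[2, 3, 8], [2, 0, 3, 8], [2, 0, 1, 3, 7, 8], [2, 0, 1, 3, 7, 5, 8], [2, 0, 1, 3, 7, 5, 6, 8], [2, 0, 1, 3, 7, 5, 6, 9, 8], [2, 0, 1, 3, 7, 5, 6, 9, 10, 8], [2, 0, 1, 3, 7, 5, 6, 9, 4, 10, 8]],
   [[2, 5, 9], [2, 0, 4, 9], [2, 0, 1, 3, 7, 9], [2, 0, 1, 3, 7, 5, 9], [2, 0, 1, 3, 7, 5, 6, 9], [2, 0, 1, 3, 7, 5, 6, 8, 9], [2, 0, 1, 3, 7, 5, 6, 8, 10, 9], [2, 0, 1, 3, 7, 5, 6, 8, 10, 4, 9]],
   [[2, 5, 10], [2, 0, 4, 10], [2, 0, 1, 3, 7, 10], [2, 0, 1, 3, 7, 5, 10], [2, 0, 1, 3, 7, 5, 6, 10], [2, 0, 1, 3, 7, 5, 6, 8, 10], [2, 0, 1, 3, 7, 5, 6, 8, 9, 10], [2, 0, 1, 3, 7, 5, 6, 8, 9, 4, 10]]],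
  [[],
   [],
   [],
   [],
   [[3, 0, 4], [3, 0, 1, 4], [3, 0, 2, 5, 9, 4], [3, 0, 1, 2, 5, 9, 4], [3, 0, 1, 2, 5, 6, 9, 4], [3, 0, 1, 2, 5, 6, 7, 9, 4], [3, 0, 1, 2, 5, 6, 7, 8, 9, 4], [3, 0, 1, 2, 5, 6, 7, 8, 9, 10, 4]],
   [[3, 2, 5], [3, 0, 2, 5], [3, 0, 1, 2, 6, 5], [3, 0, 1, 2, 6, 7, 5], [3, 0, 1, 2, 6, 7, 8, 5], [3, 0, 1, 2, 6, 7, 8, 9, 5], [3, 0, 1, 2, 6, 7, 8, 9, 10, 5], [3, 0, 1, 2, 6, 7, 8, 9, 4, 10, 5]],
   [[3, 2, 6], [3, 0, 2, 6], [3, 0, 1, 2, 5, 6], [3, 0, 1, 2, 5, 7, 6], [3, 0, 1, 2, 5, 7, 8, 6], [3, 0, 1, 2, 5, 7, 8, 9, 6], [3, 0, 1, 2, 5, 7, 8, 9, 10, 6], [3, 0, 1, 2, 5, 7, 8, 9, 4, 10, 6]],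
   [[3, 8, 7], [3, 2, 5, 7], [3, 0, 1, 2, 5, 7], [3, 0, 1, 2, 5, 6, 7], [3, 0, 1, 2, 5, 6, 8, 7], [3, 0, 1, 2, 5, 6, 8, 9, 7], [3, 0, 1, 2, 5, 6, 8, 9, 10, 7], [3, 0, 1, 2, 5, 6, 8, 9, 4, 10, 7]],
   [[3, 7, 8], [3, 2, 5, 8], [3, 0, 1, 2, 5, 8], [3, 0, 1, 2, 5, 6, 8], [3, 0, 1, 2, 5, 6, 7, 8], [3, 0, 1, 2, 5, 6, 7, 9, 8], [3, 0, 1, 2, 5, 6, 7, 9, 10, 8], [3, 0, 1, 2, 5, 6, 7, 9, 4, 10, 8]],
   [[3, 7, 9], [3, 0, 4, 9], [3, 0, 1, 2, 5, 9], [3, 0, 1, 2, 5, 6, 9], [3, 0, 1, 2, 5, 6, 7, 9], [3, 0, 1, 2, 5, 6, 7, 8, 9], [3, 0, 1, 2, 5, 6, 7, 8, 10, 9], [3, 0, 1, 2, 5, 6, 7, 8, 10, 4, 9]],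
   [[3, 7, 10], [3, 0, 4, 10], [3, 0, 1, 2, 5, 10], [3, 0, 1, 2, 5, 6, 10], [3, 0, 1, 2, 5, 6, 7, 10], [3, 0, 1, 2, 5, 6, 7, 8, 10], [3, 0, 1, 2, 5, 6, 7, 8, 9, 10], [3, 0, 1, 2, 5, 6, 7, 8, 9, 4, 10]]],
  [[],
   [],
   [],
   [],
   [],
   [[4, 9, 5], [4, 0, 2, 5], [4, 0, 1, 2, 6, 5], [4, 0, 1, 2, 3, 7, 5], [4, 0, 1, 2, 3, 7, 6, 5], [4, 0, 1, 2, 3, 7, 6, 8, 5], [4, 0, 1, 2, 3, 7, 6, 8, 9, 5], [4, 0, 1, 2, 3, 7, 6, 8, 9, 10, 5]],
   [[4, 9, 6], [4, 0, 2, 6], [4, 0, 1, 2, 5, 6], [4, 0, 1, 2, 3, 7, 6], [4, 0, 1, 2, 3, 7, 5, 6], [4, 0, 1, 2, 3, 7, 5, 8, 6], [4, 0, 1, 2, 3, 7, 5, 8, 9, 6], [4, 0, 1, 2, 3, 7, 5, 8, 9, 10, 6]],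
   [[4, 9, 7], [4, 0, 3, 7], [4, 0, 1, 2, 3, 7], [4, 0, 1, 2, 3, 8, 7], [4, 0, 1, 2, 3, 8, 5, 7], [4, 0, 1, 2, 3, 8, 5, 6, 7], [4, 0, 1, 2, 3, 8, 5, 6, 9, 7], [4, 0, 1, 2, 3, 8, 5, 6, 9, 10, 7]],
   [[4, 9, 8], [4, 0, 3, 8], [4, 0, 1, 2, 3, 8], [4, 0, 1, 2, 3, 7, 8], [4, 0, 1, 2, 3, 7, 5, 8], [4, 0, 1, 2, 3, 7, 5, 6, 8], [4, 0, 1, 2, 3, 7, 5, 6, 9, 8], [4, 0, 1, 2, 3, 7, 5, 6, 9, 10, 8]],
   [[4, 10, 9], [4, 10, 5, 9], [4, 0, 1, 2, 5, 9], [4, 0, 1, 2, 3, 7, 9], [4, 0, 1, 2, 3, 7, 5, 9], [4, 0, 1, 2, 3, 7, 5, 6, 9], [4, 0, 1, 2, 3, 7, 5, 6, 8, 9], [4, 0, 1, 2, 3, 7, 5, 6, 8, 10, 9]],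
   [[4, 9, 10], [4, 9, 5, 10], [4, 0, 1, 2, 5, 10], [4, 0, 1, 2, 3, 7, 10], [4, 0, 1, 2, 3, 7, 5, 10], [4, 0, 1, 2, 3, 7, 5, 6, 10], [4, 0, 1, 2, 3, 7, 5, 6, 8, 10], [4, 0, 1, 2, 3, 7, 5, 6, 8, 9, 10]]],
  [[],
   [],
   [],
   [],
   [],
   [],
   [[5, 2, 6], [5, 7, 8, 6], [5, 2, 0, 3, 7, 6], [5, 2, 0, 1, 3, 7, 6], [5, 2, 0, 1, 3, 7, 8, 6], [5, 2, 0, 1, 3, 7, 8, 9, 6], [5, 2, 0, 1, 3, 7, 8, 9, 10, 6], [5, 2, 0, 1, 3, 7, 8, 9, 4, 10, 6]],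
   [[5, 6, 7], [5, 2, 3, 7], [5, 2, 0, 1, 3, 7], [5, 2, 0, 1, 3, 8, 7], [5, 2, 0, 1, 3, 8, 6, 7], [5, 2, 0, 1, 3, 8, 6, 9, 7], [5, 2, 0, 1, 3, 8, 6, 9, 10, 7], [5, 2, 0, 1, 3, 8, 6, 9, 4, 10, 7]],
   [[5, 6, 8], [5, 2, 3, 8], [5, 2, 0, 1, 3, 8], [5, 2, 0, 1, 3, 7, 8], [5, 2, 0, 1, 3, 7, 6, 8], [5, 2, 0, 1, 3, 7, 6, 9, 8], [5, 2, 0, 1, 3, 7, 6, 9, 10, 8], [5, 2, 0, 1, 3, 7, 6, 9, 4, 10, 8]],
   [[5, 6, 9], [5, 2, 6, 9], [5, 2, 0, 1, 4, 9], [5, 2, 0, 1, 3, 7, 9], [5, 2, 0, 1, 3, 7, 6, 9], [5, 2, 0, 1, 3, 7, 6, 8, 9], [5, 2, 0, 1, 3, 7, 6, 8, 10, 9], [5, 2, 0, 1, 3, 7, 6, 8, 10, 4, 9]],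
   [[5, 6, 10], [5, 2, 6, 10], [5, 2, 0, 1, 4, 10], [5, 2, 0, 1, 3, 7, 10], [5, 2, 0, 1, 3, 7, 6, 10], [5, 2, 0, 1, 3, 7, 6, 8, 10], [5, 2, 0, 1, 3, 7, 6, 8, 9, 10], [5, 2, 0, 1, 3, 7, 6, 8, 9, 4, 10]]],
  [[],
   [],
   [],
   [],
   [],
   [],
   [],
   [[6, 5, 7], [6, 2, 3, 7], [6, 2, 0, 1, 3, 7], [6, 2, 0, 1, 3, 8, 7], [6, 2, 0, 1, 3, 8, 5, 7], [6, 2, 0, 1, 3, 8, 5, 9, 7], [6, 2, 0, 1, 3, 8, 5, 9, 10, 7], [6, 2, 0, 1, 3, 8, 5, 9, 4, 10, 7]],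
   [[6, 5, 8], [6, 2, 3, 8], [6, 2, 0, 1, 3, 8], [6, 2, 0, 1, 3, 7, 8], [6, 2, 0, 1, 3, 7, 5, 8], [6, 2, 0, 1, 3, 7, 5, 9, 8], [6, 2, 0, 1, 3, 7, 5, 9, 10, 8], [6, 2, 0, 1, 3, 7, 5, 9, 4, 10, 8]],
   [[6, 5, 9], [6, 2, 5, 9], [6, 2, 0, 1, 4, 9], [6, 2, 0, 1, 3, 7, 9], [6, 2, 0, 1, 3, 7, 5, 9], [6, 2, 0, 1, 3, 7, 5, 8, 9], [6, 2, 0, 1, 3, 7, 5, 8, 10, 9], [6, 2, 0, 1, 3, 7, 5, 8, 10, 4, 9]],
   [[6, 5, 10], [6, 2, 5, 10], [6, 2, 0, 1, 4, 10], [6, 2, 0, 1, 3, 7, 10], [6, 2, 0, 1, 3, 7, 5, 10], [6, 2, 0, 1, 3, 7, 5, 8, 10], [6, 2, 0, 1, 3, 7, 5, 8, 9, 10], [6, 2, 0, 1, 3, 7, 5, 8, 9, 4, 10]]],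
  [[],
   [],
   [],
   [],
   [],
   [],
   [],
   [],
   [[7, 3, 8], [7, 5, 6, 8], [7, 3, 0, 2, 5, 8], [7, 3, 0, 1, 2, 5, 8], [7, 3, 0, 1, 2, 5, 6, 8], [7, 3, 0, 1, 2, 5, 6, 9, 8], [7, 3, 0, 1, 2, 5, 6, 9, 10, 8], [7, 3, 0, 1, 2, 5, 6, 9, 4, 10, 8]],
   [[7, 5, 9], [7, 3, 8, 9], [7, 3, 0, 1, 4, 9], [7, 3, 0, 1, 2, 5, 9], [7, 3, 0, 1, 2, 5, 6, 9], [7, 3, 0, 1, 2, 5, 6, 8, 9], [7, 3, 0, 1, 2, 5, 6, 8, 10, 9], [7, 3, 0, 1, 2, 5, 6, 8, 10, 4, 9]],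
   [[7, 5, 10], [7, 3, 8, 10], [7, 3, 0, 1, 4, 10], [7, 3, 0, 1, 2, 5, 10], [7, 3, 0, 1, 2, 5, 6, 10], [7, 3, 0, 1, 2, 5, 6, 8, 10], [7, 3, 0, 1, 2, 5, 6, 8, 9, 10], [7, 3, 0, 1, 2, 5, 6, 8, 9, 4, 10]]],
  [[],
   [],
   [],
   [],
   [],
   [],
   [],
   [],
   [],
   [[8, 5, 9], [8, 3, 7, 9], [8, 3, 0, 1, 4, 9], [8, 3, 0, 1, 2, 5, 9], [8, 3, 0, 1, 2, 5, 6, 9], [8, 3, 0, 1, 2, 5, 6, 7, 9], [8, 3, 0, 1, 2, 5, 6, 7, 10, 9], [8, 3, 0, 1, 2, 5, 6, 7, 10, 4, 9]],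
   [[8, 5, 10], [8, 3, 7, 10], [8, 3, 0, 1, 4, 10], [8, 3, 0, 1, 2, 5, 10], [8, 3, 0, 1, 2, 5, 6, 10], [8, 3, 0, 1, 2, 5, 6, 7, 10], [8, 3, 0, 1, 2, 5, 6, 7, 9, 10], [8, 3, 0, 1, 2, 5, 6, 7, 9, 4, 10]]],
  [[],
   [],
   [],
   [],
   [],
   [],
   [],
   [],
   [],
   [],
   [[9, 4, 10], [9, 5, 6, 10], [9, 4, 0, 2, 5, 10], [9, 4, 0, 1, 2, 5, 10], [9, 4, 0, 1, 2, 3, 7, 10], [9, 4, 0, 1, 2, 3, 7, 5, 10], [9, 4, 0, 1, 2, 3, 7, 5, 6, 10], [9, 4, 0, 1, 2, 3, 7, 5, 6, 8, 10]]],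
  [[],
   [],
   [],
   [],
   [],
   [],
   [],
   [],
   [],
   [],
   []]]

/-- The lengths of the paths in `cert`. -/
def lens : Fin 8 → ℕ := ![3, 4, 6, 7, 8, 9, 10, 11]

/-- The path between `u` and `v` with `lens k` vertices. -/
def getc (u v : Fin 11) (k : Fin 8) : List (Fin 11) :=
  ((cert.getD u []).getD v []).getD k []

lemma cert_ok : ∀ u v : Fin 11, u < v → ∀ k : Fin 8,
    (getc u v k).length = lens k ∧ (getc u v k).Nodup ∧ (getc u v k).IsChain base.Adj ∧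
      (getc u v k).head? = some u ∧ (getc u v k).getLast? = some v := by
  decide +kernel

/-- The base graph has no path with five vertices between `0` and `1`. -/
lemma base_five : ¬ Joined base 5 0 1 := by
  rw [joined_five]
  have h : ∀ a b c : Fin 11, ¬ (([0, a, b, c, 1] : List (Fin 11)).Nodup ∧ base.Adj 0 a ∧
      base.Adj a b ∧ base.Adj b c ∧ base.Adj c 1) := by
    decide +kernel
  rintro ⟨a, b, c, h'⟩
  exact h a b c h'

lemma base_HasP (i : ℕ) (h3 : 3 ≤ i) (h11 : i ≤ 11) (h5 : i ≠ 5) : HasP base i := by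
  have key : ∃ k : Fin 8, lens k = i := by
    have : ∀ i : Fin 12, 3 ≤ i.val → i.val ≠ 5 → ∃ k : Fin 8, lens k = i.val := by decide
    exact this ⟨i, by omega⟩ h3 h5
  obtain ⟨k, hk⟩ := key
  intro u v huv
  rcases lt_or_gt_of_ne huv with h | h
  · obtain ⟨g1, g2, g3, g4, g5⟩ := cert_ok u v h k
    exact ⟨_, g1.trans hk, g2, g3, g4, g5⟩
  · obtain ⟨g1, g2, g3, g4, g5⟩ := cert_ok v u h k
    exact joined_symm ⟨_, g1.trans hk, g2, g3, g4, g5⟩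

/-- The inductive statement. -/
def Good (n : ℕ) : Prop := ∃ (V : Type) (_ : Fintype V) (_ : DecidableEq V) (G : SimpleGraph V),
  Fintype.card V = n ∧ (∀ i, 3 ≤ i → i ≤ n → i ≠ 5 → HasP G i) ∧
  ∃ u v w y : V, u ≠ v ∧ ¬ Joined G 5 u v ∧ w ≠ u ∧ w ≠ v ∧ ¬ G.Adj w u ∧ ¬ G.Adj w v ∧
    G.Adj w y ∧ Joined G 5 w y

lemma good_base : Good 11 := by
  refine ⟨Fin 11, inferInstance, inferInstance, base, by simp, base_HasP, 0, 1, 10, 9,
    by decide, base_five, by decide, by decide, by decide, by decide, by decide, ?_⟩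
  rw [joined_five]
  exact ⟨5, 2, 6, by decide⟩

lemma good_succ {n : ℕ} (hn : 11 ≤ n) (h : Good n) : Good (n + 1) := by
  obtain ⟨V, _, _, G, hcard, hP, u, v, w, y, huv, h5, hwu, hwv, hwu', hwv', hwy, hwy5⟩ := h
  have hfull : ∀ l : List V, l.length = n → l.Nodup → ∀ x, x ∈ l := by
    intro l hl hnd x
    have h1 : l.toFinset.card = Fintype.card V := by
      rw [List.toFinset_card_of_nodup hnd, hl, hcard]
    have h2 := (Finset.card_eq_iff_eq_univ _).mp h1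
    have : x ∈ l.toFinset := by rw [h2]; exact Finset.mem_univ x
    simpa using this
  -- pairs `(some s, none)`
  have hnone : ∀ s : V, ∀ i, 3 ≤ i → i ≤ n + 1 → i ≠ 5 → Joined (twin G w) i (some s) none := by
    intro s i h3 hin hi5
    by_cases hs : s = w
    · subst hs
      obtain ⟨j, rfl⟩ : ∃ j, i = j + 1 := ⟨i - 1, by omega⟩
      by_cases hj2 : j = 2
      · subst hj2
        refine joined_append (t := y) ⟨[s, y], rfl, ?_, ?_, rfl, rfl⟩ (Or.inr hwy)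
        · simp [G.ne_of_adj hwy]
        · simp [hwy]
      · by_cases hj5 : j = 5
        · subst hj5
          exact joined_append hwy5 (Or.inr hwy)
        · exact joined_append (hP j (by omega) (by omega) hj5 s y (G.ne_of_adj hwy)) (Or.inr hwy)
    · rcases Nat.lt_or_ge n i with h | h
      · have : i = n + 1 := by omega
        subst this
        exact joined_append (hP n (by omega) le_rfl (by omega) s w hs) (Or.inl rfl)
      · exact joined_replace hs (hP i h3 h hi5 s w hs)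
  refine ⟨Option V, inferInstance, inferInstance, twin G w, by simp [hcard], ?_,
    some u, some v, some w, some y, ?_, ?_, ?_, ?_, hwu', hwv', hwy, joined_map hwy5⟩
  · intro i h3 hin hi5
    rintro (_ | s) (_ | t) hst
    · exact absurd rfl hst
    · exact joined_symm (hnone t i h3 hin hi5)
    · exact hnone s i h3 hin hi5
    · have hst' : s ≠ t := fun h => hst (by rw [h])
      rcases Nat.lt_or_ge n i with h | h
      · have : i = n + 1 := by omega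
        subst this
        obtain ⟨l, g1, g2, g3, g4, g5⟩ := hP n (by omega) le_rfl (by omega) s t hst'
        exact joined_insert hst' g1 g2 g3 g4 g5 (hfull l g1 g2 w)
      · exact joined_map (hP i h3 h hi5 s t hst')
  · exact fun h => huv (Option.some_injective _ h)
  · intro hj
    rw [joined_five] at hj
    obtain ⟨a, b, c, hnd, e1, e2, e3, e4⟩ := hj
    apply h5
    rw [joined_five]
    cases a with
    | none => rcases e1 with e1 | e1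
              · exact absurd e1.symm hwu
              · exact absurd e1 hwu'
    | some a =>
      cases c with
      | none => rcases e4 with e4 | e4
                · exact absurd e4.symm hwv
                · exact absurd e4 hwv'
      | some c =>
        cases b with
        | some b =>
          refine ⟨a, b, c, ?_, e1, e2, e3, e4⟩
          simpa using hnd
        | none =>
          have ha : G.Adj w a := by
            rcases e2 with e2 | e2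
            · subst e2
              exact absurd (G.adj_symm e1) hwu'
            · exact e2
          have hc : G.Adj w c := by
            rcases e3 with e3 | e3
            · subst e3
              exact absurd e4 hwv'
            · exact e3
          refine ⟨a, w, c, ?_, e1, ha.symm, hc, e4⟩
          have haw := G.ne_of_adj ha
          have hcw := G.ne_of_adj hc
          simp at hnd ⊢
          tauto
  · exact fun h => hwu (Option.some_injective _ h)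
  · exact fun h => hwv (Option.some_injective _ h)

/-- For every `n ≥ 11` there is a graph of order `n` having `P_i` for all `3 ≤ i ≤ n`, `i ≠ 5`,
but not `P_5`. -/
theorem exists_graph (n : ℕ) (hn : 11 ≤ n) : ∃ (V : Type) (_ : Fintype V) (G : SimpleGraph V),
    Fintype.card V = n ∧ (∀ i, 3 ≤ i → i ≤ n → i ≠ 5 → HasP G i) ∧ ¬ HasP G 5 := by
  have h : Good n := by
    induction n, hn using Nat.le_induction with
    | base => exact good_base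
    | succ n hn ih => exact good_succ hn ih
  obtain ⟨V, i1, _, G, hcard, hP, u, v, w, y, huv, h5, _⟩ := h
  exact ⟨V, i1, G, hcard, hP, fun h => h5 (h u v huv)⟩

end Pool.Agent.V11195.PathProp
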